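import Pool.Agent.H329R3.NU.Stmts

open MeasureTheory Set Filter Topology
open scoped RealInnerProductSpace

namespace Pool.Agent.H329R3.NU

open Pool.Agent.H329R3.PM

theorem taskPolar : TaskPolar := by
  have hemb : MeasurableEmbedding (Subtype.val : Metric.sphere (0 : E 3) 1 → E 3) :=
    MeasurableEmbedding.subtype_coe Metric.isClosed_sphere.measurableSet
  refine ⟨Measure.map Subtype.val (volume : Measure (E 3)).toSphere, ?_, ?_, ?_⟩
  · exact Measure.isFiniteMeasure_map _ _
  · rw [hemb.ae_map_iff]
    exact Filter.Eventually.of_forall fun ω => by simp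
  · intro f hf
    have hd : Module.finrank ℝ (E 3) = 3 := by simp
    set μ : Measure (E 3) := volume with hμ
    -- transport
    have hmp := μ.measurePreserving_homeomorphUnitSphereProd
    have hme : MeasurableEmbedding (homeomorphUnitSphereProd (E 3)) :=
      Homeomorph.measurableEmbedding _
    set g : Metric.sphere (0 : E 3) 1 × Ioi (0 : ℝ) → ℝ := fun p => f (p.2.1 • p.1.1) with hg
    have hgf : ∀ x : ({(0 : E 3)}ᶜ : Set (E 3)), g (homeomorphUnitSphereProd (E 3) x) = f x.1 := by
      intro x
      have := (homeomorphUnitSphereProd (E 3)).symm_apply_apply x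
      have h2 := congrArg Subtype.val this
      simp only [hg]
      rw [← h2]
      congr 1
    have hint : Integrable g (μ.toSphere.prod (Measure.volumeIoiPow (Module.finrank ℝ (E 3) - 1))) := by
      rw [← hmp.integrable_comp_emb hme]
      have : (g ∘ homeomorphUnitSphereProd (E 3)) = fun x => f x.1 := funext hgf
      rw [this]
      have h1 : IntegrableOn f ({(0 : E 3)}ᶜ) μ := hf.integrableOn
      rw [integrableOn_iff_comap_subtypeVal (measurableSet_singleton _).compl] at h1
      exact h1
    rw [hemb.integral_map]
    calc ∫ x, f x ∂μ = ∫ x : ({(0 : E 3)}ᶜ : Set (E 3)), f x.1 ∂(μ.comap (↑)) := by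
          rw [integral_subtype_comap (measurableSet_singleton _).compl fun x => f x,
            restrict_compl_singleton]
      _ = ∫ p, g p ∂(μ.toSphere.prod (Measure.volumeIoiPow (Module.finrank ℝ (E 3) - 1))) := by
          rw [← hmp.integral_comp hme]
          exact integral_congr_ae (Filter.Eventually.of_forall fun x => (hgf x).symm)
      _ = ∫ ω, (∫ r, g (ω, r) ∂(Measure.volumeIoiPow (Module.finrank ℝ (E 3) - 1))) ∂μ.toSphere :=
          integral_prod _ hint
      _ = _ := by
          refine integral_congr_ae (Filter.Eventually.of_forall fun ω => ?_)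
          simp only [hd, hg]
          simp only [Measure.volumeIoiPow, ENNReal.ofReal]
          rw [integral_withDensity_eq_integral_smul,
            integral_subtype_comap measurableSet_Ioi
              fun a : ℝ => Real.toNNReal (a ^ (3 - 1)) • f (a • ω.1)]
          · refine setIntegral_congr_fun measurableSet_Ioi fun x hx => ?_
            show Real.toNNReal (x ^ (3 - 1)) • f (x • ω.1) = x ^ 2 * f (x • ω.1)
            rw [NNReal.smul_def, Real.coe_toNNReal _ (pow_nonneg hx.out.le _)]
            simp
          · exact (measurable_subtype_coe.pow_const _).real_toNNReal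

end Pool.Agent.H329R3.NU
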