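import Pool.Agent.H369R3.UT.Defs

set_option autoImplicit false

open Set Filter Topology Metric MeasureTheory

namespace Pool.Agent.H884R4.UTH

open Pool.Agent.H369R3.UT

theorem taskH : Pool.Agent.H369R3.UT.TaskH := by
  intro n f x y M hf hmax
  -- one dimensional restriction
  have key : ∀ v : Cn n,
      IsLocalMax (fun t : ℝ => f (x + t • v) -
        (M / 2 * ‖x - y‖ ^ 2 + t * (M * inner ℝ (x - y) v) + t ^ 2 * (M / 2 * ‖v‖ ^ 2))) 0 ∧
      (∀ t : ℝ, HasDerivAt (fun t : ℝ => f (x + t • v) -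
        (M / 2 * ‖x - y‖ ^ 2 + t * (M * inner ℝ (x - y) v) + t ^ 2 * (M / 2 * ‖v‖ ^ 2)))
        (fderiv ℝ f (x + t • v) v - (M * inner ℝ (x - y) v + t * (M * ‖v‖ ^ 2))) t) ∧
      HasDerivAt (fun t : ℝ => fderiv ℝ f (x + t • v) v -
        (M * inner ℝ (x - y) v + t * (M * ‖v‖ ^ 2)))
        (fderiv ℝ (fderiv ℝ f) x v v - M * ‖v‖ ^ 2) 0 := by
    intro v
    have hline : ∀ t : ℝ, HasDerivAt (fun t : ℝ => x + t • v) v t := by
      intro t
      have := ((hasDerivAt_id t).smul_const v).const_add x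
      simpa using this
    have hfd : Differentiable ℝ f := hf.differentiable (by norm_num)
    have hf1 : ContDiff ℝ 2 (fderiv ℝ f) := hf.fderiv_right (by norm_num)
    have hf1d : Differentiable ℝ (fderiv ℝ f) := hf1.differentiable (by norm_num)
    refine ⟨?_, ?_, ?_⟩
    · have hg : ∀ t : ℝ, f (x + t • v) -
          (M / 2 * ‖x - y‖ ^ 2 + t * (M * inner ℝ (x - y) v) + t ^ 2 * (M / 2 * ‖v‖ ^ 2)) =
          f (x + t • v) - M / 2 * ‖x + t • v - y‖ ^ 2 := by
        intro t
        have h1 : x + t • v - y = (x - y) + t • v := by abel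
        have h2 : ‖(x - y) + t • v‖ ^ 2 =
            ‖x - y‖ ^ 2 + 2 * (t * inner ℝ (x - y) v) + t ^ 2 * ‖v‖ ^ 2 := by
          rw [norm_add_sq_real, real_inner_smul_right, norm_smul, mul_pow, Real.norm_eq_abs,
            sq_abs]
        rw [h1, h2]
        ring
      have ht : Tendsto (fun t : ℝ => x + t • v) (𝓝 0) (𝓝 x) := by
        have := (hline 0).continuousAt.tendsto
        simpa using this
      have h3 := ht.eventually hmax
      filter_upwards [h3] with t h4
      rw [hg t, hg 0]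
      simpa using h4
    · intro t
      have h1 : HasDerivAt (fun t : ℝ => f (x + t • v)) (fderiv ℝ f (x + t • v) v) t :=
        (hfd (x + t • v)).hasFDerivAt.comp_hasDerivAt t (hline t)
      have h2 : HasDerivAt (fun t : ℝ => M / 2 * ‖x - y‖ ^ 2 + t * (M * inner ℝ (x - y) v) +
          t ^ 2 * (M / 2 * ‖v‖ ^ 2)) (M * inner ℝ (x - y) v + t * (M * ‖v‖ ^ 2)) t := by
        have h3 := (((hasDerivAt_id t).mul_const (M * inner ℝ (x - y) v)).const_add
          (M / 2 * ‖x - y‖ ^ 2)).add ((hasDerivAt_pow 2 t).mul_const (M / 2 * ‖v‖ ^ 2))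
        refine (h3.congr_deriv ?_)
        simp
        ring
      exact h1.sub h2
    · have h1 : HasDerivAt (fun t : ℝ => fderiv ℝ f (x + t • v))
          (fderiv ℝ (fderiv ℝ f) (x + (0 : ℝ) • v) v) 0 :=
        (hf1d (x + (0 : ℝ) • v)).hasFDerivAt.comp_hasDerivAt 0 (hline 0)
      have h2 : HasDerivAt (fun t : ℝ => fderiv ℝ f (x + t • v) v)
          (fderiv ℝ (fderiv ℝ f) (x + (0 : ℝ) • v) v v) 0 := by
        have := h1.clm_apply (hasDerivAt_const (0 : ℝ) v)
        simpa using this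
      have h3 : HasDerivAt (fun t : ℝ => M * inner ℝ (x - y) v + t * (M * ‖v‖ ^ 2))
          (M * ‖v‖ ^ 2) 0 := by
        have := ((hasDerivAt_id (0 : ℝ)).mul_const (M * ‖v‖ ^ 2)).const_add
          (M * inner ℝ (x - y) v)
        simpa using this
      have h4 := h2.sub h3
      rw [zero_smul, add_zero] at h4
      exact h4
  constructor
  · intro v
    obtain ⟨h1, h2, -⟩ := key v
    have h3 := h1.hasDerivAt_eq_zero (h2 0)
    rw [zero_smul, add_zero, zero_mul, add_zero] at h3
    linarith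
  · intro v
    obtain ⟨h1, h2, h3⟩ := key v
    set φ : ℝ → ℝ := fun t : ℝ => f (x + t • v) -
        (M / 2 * ‖x - y‖ ^ 2 + t * (M * inner ℝ (x - y) v) + t ^ 2 * (M / 2 * ‖v‖ ^ 2)) with hφ
    have hd : deriv φ = fun t : ℝ => fderiv ℝ f (x + t • v) v -
        (M * inner ℝ (x - y) v + t * (M * ‖v‖ ^ 2)) := funext fun t => (h2 t).deriv
    have hdd : deriv (deriv φ) 0 = fderiv ℝ (fderiv ℝ f) x v v - M * ‖v‖ ^ 2 := by
      rw [hd]; exact h3.deriv
    by_contra hcon
    push Not at hcon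
    have hpos : 0 < deriv (deriv φ) 0 := by rw [hdd]; linarith
    have hzero : deriv φ 0 = 0 := h1.deriv_eq_zero
    have hmin : IsLocalMin φ 0 :=
      isLocalMin_of_deriv_deriv_pos hpos hzero (h2 0).continuousAt
    have hconst : φ =ᶠ[𝓝 0] fun _ => φ 0 := by
      filter_upwards [h1, hmin] with t h4 h5
      exact le_antisymm h4 h5
    have h6 : deriv φ =ᶠ[𝓝 0] fun _ => 0 := by
      have := hconst.deriv
      simpa using this
    have h7 : deriv (deriv φ) 0 = 0 := by
      rw [h6.deriv_eq]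
      simp
    linarith

end Pool.Agent.H884R4.UTH
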