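import Pool.Agent.H250R3.Berg.Stmts

set_option autoImplicit false

open Polynomial MeasureTheory Set

namespace Pool.Agent.H250R3.Berg

theorem taskEven_aux : ∀ (n : ℕ) (p : ℝ[X]), p.natDegree ≤ n → p ≠ 0 →
    (∀ x : ℝ, 0 < x → x < 1 → Even (p.rootMultiplicity x)) →
    (∀ x : ℝ, 0 < x → x < 1 → 0 ≤ p.eval x) ∨ (∀ x : ℝ, 0 < x → x < 1 → p.eval x ≤ 0) := by
  intro n
  induction n using Nat.strong_induction_on with
  | _ n ih =>
    intro p hpn hp he
    by_cases hroot : ∃ x : ℝ, 0 < x ∧ x < 1 ∧ p.eval x = 0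
    · obtain ⟨x, hx0, hx1, hx⟩ := hroot
      have h1 : 0 < p.rootMultiplicity x := (rootMultiplicity_pos hp).2 hx
      have h2 : 2 ≤ p.rootMultiplicity x := by
        obtain ⟨k, hk⟩ := he x hx0 hx1
        omega
      obtain ⟨r, hr⟩ := (le_rootMultiplicity_iff hp).1 h2
      have hX : (X - C x : ℝ[X]) ≠ 0 := X_sub_C_ne_zero x
      have hr0 : r ≠ 0 := by
        rintro rfl
        exact hp (by rw [hr, mul_zero])
      have hdeg : p.natDegree = 2 + r.natDegree := by
        rw [hr, natDegree_mul (pow_ne_zero _ hX) hr0, natDegree_pow, natDegree_X_sub_C]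
      have her : ∀ y : ℝ, 0 < y → y < 1 → Even (r.rootMultiplicity y) := by
        intro y hy0 hy1
        have h3 := he y hy0 hy1
        rw [hr, rootMultiplicity_mul (by rw [← hr]; exact hp), pow_two,
          rootMultiplicity_mul (mul_ne_zero hX hX)] at h3
        rw [Nat.even_add] at h3
        exact h3.1 ⟨_, rfl⟩
      have hev : ∀ y : ℝ, p.eval y = (y - x) ^ 2 * r.eval y := by
        intro y
        rw [hr]
        simp
      rcases ih (n - 2) (by omega) r (by omega) hr0 her with h | h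
      · left
        intro y hy0 hy1
        rw [hev]
        exact mul_nonneg (sq_nonneg _) (h y hy0 hy1)
      · right
        intro y hy0 hy1
        rw [hev]
        exact mul_nonpos_of_nonneg_of_nonpos (sq_nonneg _) (h y hy0 hy1)
    · push Not at hroot
      by_contra hcon
      push Not at hcon
      obtain ⟨⟨a, ha0, ha1, ha⟩, ⟨b, hb0, hb1, hb⟩⟩ := hcon
      have hc : ContinuousOn (fun x : ℝ => p.eval x) (Ioo (0 : ℝ) 1) := p.continuous.continuousOn
      have := (isPreconnected_Ioo (a := (0 : ℝ)) (b := 1)).intermediate_value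
        ⟨ha0, ha1⟩ ⟨hb0, hb1⟩ hc
      obtain ⟨z, hz, hz0⟩ := this ⟨ha.le, hb.le⟩
      exact hroot z hz.1 hz.2 hz0

theorem taskEven : TaskEven := fun p hp he => taskEven_aux p.natDegree p le_rfl hp he

end Pool.Agent.H250R3.Berg
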