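import Pool.Agent.H282R3.FP.Stmts

set_option autoImplicit false

namespace Pool.Agent.H282R3.FP

open Set

theorem taskLimit {W : Type} [LinearOrder W] : TaskLimit W := by
  classical
  intro hW b k p σ hF X hX1 hX2
  -- monotonicity
  have hanti : ∀ i j, i ≤ j → p j ≤ p i := by
    intro i j hij
    induction j, hij using Nat.le_induction with
    | base => exact le_rfl
    | succ j _ ih => exact (hF.le j).trans ih
  have hdm : ∀ i j, i ≤ j → (p i).d ≤ (p j).d := fun i j h => (hanti i j h).1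
  -- the supremum
  obtain ⟨d, hd1, hd2⟩ : ∃ d : W, (∀ i, (p i).d < d) ∧ ∀ x < d, ∃ i, x < (p i).d := by
    have := hW.wf
    obtain ⟨w, hw⟩ := hW.bdd (range fun i => (p i).d) (countable_range _)
    have hne : {w : W | ∀ i, (p i).d < w}.Nonempty := ⟨w, fun i => hw _ ⟨i, rfl⟩⟩
    refine ⟨WellFounded.min (wellFounded_lt (α := W)) _ hne, WellFounded.min_mem _ _ hne, ?_⟩
    intro x hx
    by_contra hcon
    push Not at hcon
    have : x ∈ {w : W | ∀ i, (p i).d < w} := by
      intro i
      exact (hF.lt i).trans_le (hcon (i + 1))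
    exact WellFounded.not_lt_min (wellFounded_lt (α := W)) _ this hx
  -- `s`
  obtain ⟨s, hs1, hs2⟩ : ∃ s : W → Bool, (∀ i, ∀ x ≤ (p i).d, s x = (p i).s x) ∧
      ∀ x, (∀ i, (p i).d < x) → s x = b := by
    refine ⟨fun x => if h : ∃ i, x ≤ (p i).d then (p (Nat.find h)).s x else b, ?_, ?_⟩
    · intro i x hx
      have h : ∃ i, x ≤ (p i).d := ⟨i, hx⟩
      simp only [dif_pos h]
      exact ((hanti _ i (Nat.find_min' h hx)).2.1 x (Nat.find_spec h)).symm
    · intro x hx
      have h : ¬ ∃ i, x ≤ (p i).d := fun ⟨i, hi⟩ => absurd (hx i) (not_lt.2 hi)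
      simp only [dif_neg h]
  -- `C`
  obtain ⟨C, hC1⟩ : ∃ C : Bool → W → Set ℕ, ∀ i b', ∀ x < (p i).d, C b' x = (p i).C b' x := by
    refine ⟨fun b' x => if h : ∃ i, x < (p i).d then (p (Nat.find h)).C b' x else ∅, ?_⟩
    intro i b' x hx
    have h : ∃ i, x < (p i).d := ⟨i, hx⟩
    simp only [dif_pos h]
    exact ((hanti _ i (Nat.find_min' h hx)).2.2.1 b' x (Nat.find_spec h)).symm
  -- extension along the sequence
  have hext : ∀ i i', i ≤ i' → ∀ j < k + i, Ext (p i).d (σ i' j) (σ i j) := by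
    intro i i' hii
    induction i', hii using Nat.le_induction with
    | base => intro j hj; exact ((hF.ok i j hj).carry le_rfl).2
    | succ i' hi' ih =>
      intro j hj
      exact (hF.ext i' j (by omega)).trans (hdm i i' hi') (ih j hj)
  set Eω : ℕ → Set W := fun j => {x | ∃ i, j < k + i ∧ x ∈ (σ i j).2} with hEω
  have hEi : ∀ i, ∀ j < k + i, Eω j ∩ Iio (p i).d = (σ i j).2 := by
    intro i j hj
    ext x
    constructor
    · rintro ⟨⟨i', hi', hx⟩, hxd⟩
      rcases le_total i i' with h | h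
      · rw [← (hext i i' h j hj).2]
        exact ⟨hx, hxd⟩
      · have h2 := (hext i' i h j hi').2
        rw [← h2] at hx
        exact hx.1
    · intro hx
      exact ⟨⟨i, hj, hx⟩, (hF.ok i j hj).2.1 hx⟩
  have hExt : ∀ i, ∀ j < k + i, Ext (p i).d (X j, Eω j) (σ i j) := fun i j hj =>
    ⟨hX1 i j hj, hEi i j hj⟩
  -- finite sets are caught
  have hfin : ∀ t : Finset W, (∀ x ∈ t, x < d) → ∀ i₀, ∃ i ≥ i₀, ∀ x ∈ t, x < (p i).d := by
    intro t
    induction t using Finset.induction_on with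
    | empty => intro _ i₀; exact ⟨i₀, le_rfl, by simp⟩
    | insert a t _ ih =>
      intro ht i₀
      obtain ⟨i, hi, h⟩ := ih (fun x hx => ht x (Finset.mem_insert_of_mem hx)) i₀
      obtain ⟨i', hi'⟩ := hd2 a (ht a (Finset.mem_insert_self _ _))
      refine ⟨max i i', hi.trans (le_max_left _ _), ?_⟩
      intro x hx
      rcases Finset.mem_insert.1 hx with rfl | hx
      · exact hi'.trans_le (hdm _ _ (le_max_right _ _))
      · exact (h x hx).trans_le (hdm _ _ (le_max_left _ _))
  have hCt : ∀ i b' (t : Finset W), (∀ x ∈ t, x < (p i).d) →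
      (⋂ x ∈ t, C b' x) = ⋂ x ∈ t, (p i).C b' x := by
    intro i b' t ht
    refine iInter₂_congr fun x hx => hC1 i b' x (ht x hx)
  -- `Works` is preserved
  have hworks : ∀ i b', ∀ A ∈ (p i).Y b', ∀ E, Works ((p i).C b') (p i).d E A →
      Works (C b') d E A := by
    intro i b' A hA E hE t ht
    obtain ⟨i', hi', h⟩ := hfin t (fun x hx => (ht x hx).1) i
    rw [hCt i' b' t h]
    exact (hanti i i' hi').2.2.2.2.1 b' A hA E hE t fun x hx => ⟨h x hx, (ht x hx).2⟩
  -- `Small` is preserved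
  have hsmall : ∀ i b' (E : Set W), E ⊆ Iio (p i).d → Small b' (p i).s E → Small b' s E := by
    intro i b' E hE hs l hl
    have hle : l ≤ (p i).d := by
      by_contra hcon
      push Not at hcon
      obtain ⟨x, hx, hx1, _⟩ := hl.2 _ hcon
      exact absurd (mem_Iio.1 (hE hx)) (not_lt.2 hx1.le)
    rw [hs1 i l hle]
    exact hs l hl
  have hEωd : ∀ j, Eω j ⊆ Iio d := by
    rintro j x ⟨i, hi, hx⟩
    exact (mem_Iio.1 ((hF.ok i j hi).2.1 hx)).trans (hd1 i)
  have hEωs : ∀ j, Small b s (Eω j) := by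
    intro j l hl
    by_cases h : ∃ i, l ≤ (p i).d
    · obtain ⟨i, hi⟩ := h
      have hi2 : l ≤ (p (max i (j + 1))).d := hi.trans (hdm _ _ (le_max_left _ _))
      have hj : j < k + max i (j + 1) := by
        have := le_max_right i (j + 1)
        omega
      rw [hs1 _ l hi2]
      refine (hF.ok _ j hj).2.2.1 l ⟨hl.1, fun g hg => ?_⟩
      obtain ⟨x, hx, hx1, hx2⟩ := hl.2 g hg
      refine ⟨x, ?_, hx1, hx2⟩
      rw [← hEi _ j hj]
      exact ⟨hx, mem_Iio.2 (hx2.trans_le hi2)⟩
    · push Not at h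
      exact hs2 l h
  have hEωw : ∀ j, Works (C b) d (Eω j) (X j) := by
    intro j t ht
    obtain ⟨i, hi, h⟩ := hfin t (fun x hx => (ht x hx).1) (j + 1)
    have hj : j < k + i := by omega
    rw [hCt i b t h]
    exact hX2 i j hj t fun x hx => ⟨h x hx, fun hx2 => (ht x hx).2 ⟨i, hj, hx2⟩⟩
  -- the other side
  have hnn : ∀ b' m, ∃ n, ∀ i ≤ m, ∃ n' ≥ m, Ext (p i).d ((p m).col b' n) ((p i).col b' n') := by
    intro b' m
    have h1 : ∀ i, ∃ N, i ≤ m → ∀ n ≥ N, ∃ n' ≥ m,
        Ext (p i).d ((p m).col b' n) ((p i).col b' n') := by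
      intro i
      by_cases him : i ≤ m
      · obtain ⟨N, hN⟩ := (hanti i m him).2.2.2.2.2 b' m
        exact ⟨N, fun _ => hN⟩
      · exact ⟨0, fun h => absurd h him⟩
    choose N hN using h1
    refine ⟨(Finset.range (m + 1)).sup N, fun i hi => ?_⟩
    exact hN i hi _ (Finset.le_sup (Finset.mem_range.2 (by omega)))
  choose nn hnn using hnn
  obtain ⟨A, E, hAb, hEb, hAo, hEo⟩ : ∃ (A : Bool → ℕ → Set ℕ) (E : Bool → ℕ → Set W),
      (∀ m, A b m = X (k + m)) ∧ (∀ m, E b m = Eω (k + m)) ∧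
      (∀ b', b' ≠ b → ∀ m, A b' m = (p m).A b' (nn b' m)) ∧
      (∀ b', b' ≠ b → ∀ m, E b' m = (p m).E b' (nn b' m)) := by
    refine ⟨fun b' m => if b' = b then X (k + m) else (p m).A b' (nn b' m),
      fun b' m => if b' = b then Eω (k + m) else (p m).E b' (nn b' m), ?_, ?_, ?_, ?_⟩
    · intro m; simp
    · intro m; simp
    · intro b' hb m; simp [hb]
    · intro b' hb m; simp [hb]
  have h6 : ∀ i b' m₀, ∃ N, ∀ m ≥ N, ∃ n ≥ m₀, Ext (p i).d (A b' m, E b' m) ((p i).col b' n) := by
    intro i b' m₀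
    refine ⟨max i m₀, fun m hm => ?_⟩
    have hmi : i ≤ m := (le_max_left _ _).trans hm
    have hm0 : m₀ ≤ m := (le_max_right _ _).trans hm
    by_cases hb : b' = b
    · subst hb
      obtain ⟨n, hn, h⟩ := hF.new m i hmi
      refine ⟨n, hm0.trans hn, ?_⟩
      rw [hAb, hEb]
      exact (hExt (m + 1) (k + m) (by omega)).trans (hdm _ _ (by omega)) h
    · obtain ⟨n, hn, h⟩ := hnn b' m i hmi
      refine ⟨n, hm0.trans hn, ?_⟩
      rw [hAo b' hb, hEo b' hb]
      exact h
  let q : Cond W :=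
    { d := d
      s := s
      C := C
      Y := fun b' => (⋃ i, (p i).Y b') ∪ range X
      A := A
      E := E
      hY := fun b' => (countable_iUnion fun i => (p i).hY b').union (countable_range _)
      hA := by
        intro b' n
        by_cases hb : b' = b
        · subst hb
          rw [hAb]
          exact Or.inr ⟨_, rfl⟩
        · rw [hAo b' hb]
          exact Or.inl (mem_iUnion.2 ⟨n, (p n).hA b' _⟩)
      hE := by
        intro b' n
        by_cases hb : b' = b
        · subst hb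
          rw [hEb]
          exact hEωd _
        · rw [hEo b' hb]
          exact ((p n).hE b' _).trans fun x hx => mem_Iio.2 ((mem_Iio.1 hx).trans (hd1 n))
      hs := by
        intro b' n
        by_cases hb : b' = b
        · subst hb
          rw [hEb]
          exact hEωs _
        · rw [hEo b' hb]
          exact hsmall n b' _ ((p n).hE b' _) ((p n).hs b' _)
      hw := by
        intro b' n
        by_cases hb : b' = b
        · subst hb
          rw [hEb, hAb]
          exact hEωw _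
        · rw [hEo b' hb, hAo b' hb]
          exact hworks n b' _ ((p n).hA b' _) _ ((p n).hw b' _)
      hC := by
        intro b' x hx
        obtain ⟨i, hi⟩ := hd2 x hx
        obtain ⟨N, hN⟩ := (p i).hC b' x hi
        obtain ⟨M, hM⟩ := h6 i b' N
        refine ⟨M, fun m hm => ?_⟩
        obtain ⟨n, hn, h1, _⟩ := hM m hm
        rw [hC1 i b' x hi]
        refine (h1.union (hN n hn)).subset ?_
        intro y hy
        by_cases h : y ∈ ((p i).col b' n).1
        · exact Or.inr ⟨h, hy.2⟩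
        · exact Or.inl ⟨hy.1, h⟩ }
  refine ⟨q, ?_, fun j => (X j, Eω j), fun j => rfl, ?_, hExt, ?_⟩
  · intro i
    refine ⟨(hd1 i).le, fun x hx => hs1 i x hx, fun b' x hx => hC1 i b' x hx,
      fun b' => (subset_iUnion (fun i => (p i).Y b') i).trans subset_union_left,
      fun b' A hA E hE => hworks i b' A hA E hE, fun b' m₀ => h6 i b' m₀⟩
  · intro j
    exact ⟨Or.inr ⟨j, rfl⟩, hEωd j, hEωs j, hEωw j⟩
  · intro j
    show (A b j, E b j) = (X (k + j), Eω (k + j))
    rw [hAb, hEb]

end Pool.Agent.H282R3.FP
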