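import Pool.Agent.H149R3.GK.Stmts

set_option autoImplicit false

namespace Pool.Agent.H149R3.GK

open Finset

theorem third1 : ∀ i : Fin 3, -(i + (i + 1)) = i + 2 := by decide
theorem third2 : ∀ i : Fin 3, -(i + (i + 2)) = i + 1 := by decide
theorem two_cases : ∀ i j : Fin 3, i ≠ j → j = i + 1 ∨ j = i + 2 := by decide
theorem ne_one : ∀ i : Fin 3, i ≠ i + 1 := by decide
theorem ne_two : ∀ i : Fin 3, i ≠ i + 2 := by decide

theorem taskFin : TaskFin := by
  classical
  intro hLab hFlow V _ _ G _ hreg hbr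
  obtain ⟨mt, c, hmt, hmt2, hc, hsum⟩ := hFlow V G hreg hbr
  -- degree of `Fg`
  have hne : ∀ v, mt v ≠ v := fun v h => (hmt v).ne h.symm
  have hnb : ∀ v, ∃ w1 w2 : V, w1 ≠ w2 ∧ (G.neighborFinset v).erase (mt v) = {w1, w2} := by
    intro v
    apply Finset.card_eq_two.1
    rw [Finset.card_erase_of_mem (by simpa using hmt v), G.card_neighborFinset_eq_degree,
      hreg.degree_eq v]
  have hFadj : ∀ u v, (Fg G mt).Adj u v ↔ G.Adj u v ∧ v ≠ mt u := by
    intro u v
    refine ⟨fun h => ⟨h.1, h.2.1⟩, fun h => ⟨h.1, h.2, ?_⟩⟩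
    intro h2
    apply h.2
    rw [h2, hmt2]
  have hFn : ∀ v, (Fg G mt).neighborFinset v = (G.neighborFinset v).erase (mt v) := by
    intro v
    ext w
    rw [SimpleGraph.mem_neighborFinset, Finset.mem_erase, SimpleGraph.mem_neighborFinset, hFadj]
    tauto
  have hdeg : ∀ v, (Fg G mt).degree v = 2 := by
    intro v
    rw [← SimpleGraph.card_neighborFinset_eq_degree, hFn]
    rw [Finset.card_erase_of_mem (by simpa using hmt v), G.card_neighborFinset_eq_degree,
      hreg.degree_eq v]
  obtain ⟨L, hLs, hLok⟩ := hLab V (Fg G mt) hdeg c (by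
    intro K
    refine (Finset.sum_congr rfl fun v _ => ?_).trans (hsum K)
    congr)
  choose w1 w2 hw12 hw using hnb
  have hw1 : ∀ v, (Fg G mt).Adj v (w1 v) := by
    intro v
    rw [← SimpleGraph.mem_neighborFinset, hFn, hw]
    simp
  have hw2 : ∀ v, (Fg G mt).Adj v (w2 v) := by
    intro v
    rw [← SimpleGraph.mem_neighborFinset, hFn, hw]
    simp
  have hok := fun v => hLok v (w1 v) (w2 v) (hw1 v) (hw2 v) (hw12 v)
  choose t ht using hok
  -- colours
  let colG : V → V → Fin 3 → Fin 5 := fun u w i => if w = mt u then ml (c u) i else L u w i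
  have hcolG : ∀ u w i, G.Adj u w → colG u w i = colG w u i := by
    intro u w i h
    by_cases h1 : w = mt u
    · have h2 : u = mt w := by rw [h1, hmt2]
      simp only [colG]
      rw [if_pos h1, if_pos h2, h1, hc]
    · have h2 : u ≠ mt w := fun h3 => h1 (by rw [h3, hmt2])
      simp only [colG]
      rw [if_neg h1, if_neg h2, hLs u w ((hFadj u w).2 ⟨h, h1⟩)]
  let col : V × Fin 3 → V × Fin 3 → Fin 5 := fun x y =>
    if x.1 = y.1 then t x.1 (-(x.2 + y.2)) else colG x.1 y.1 x.2
  have hadj : ∀ x y : V × Fin 3, (SimpleGraph.boxProd G (⊤ : SimpleGraph (Fin 3))).Adj x y ↔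
      (G.Adj x.1 y.1 ∧ x.2 = y.2) ∨ (x.2 ≠ y.2 ∧ x.1 = y.1) := by
    intro x y
    rw [SimpleGraph.boxProd_adj]
    simp
  have hcol : ∀ x y, (SimpleGraph.boxProd G (⊤ : SimpleGraph (Fin 3))).Adj x y →
      col x y = col y x := by
    intro x y h
    rcases (hadj x y).1 h with ⟨h1, h2⟩ | ⟨h1, h2⟩
    · have h3 : x.1 ≠ y.1 := h1.ne
      simp only [col]
      rw [if_neg h3, if_neg h3.symm, hcolG _ _ _ h1, h2]
    · simp only [col]
      rw [if_pos h2, if_pos h2.symm, h2, add_comm]
  let M : Fin 5 → (SimpleGraph.boxProd G (⊤ : SimpleGraph (Fin 3))).Subgraph := fun k =>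
    { verts := Set.univ
      Adj := fun x y => (SimpleGraph.boxProd G (⊤ : SimpleGraph (Fin 3))).Adj x y ∧ col x y = k
      adj_sub := fun h => h.1
      edge_vert := fun _ => Set.mem_univ _
      symm := ⟨fun x y h => ⟨h.1.symm, by rw [← hcol x y h.1]; exact h.2⟩⟩ }
  refine ⟨5, M, ?_, ?_⟩
  · intro k
    rw [SimpleGraph.Subgraph.isPerfectMatching_iff]
    rintro ⟨v, i⟩
    let nb : Fin 5 → V × Fin 3 := ![(w1 v, i), (mt v, i), (w2 v, i), (v, i + 2), (v, i + 1)]
    have hvec := ht v i
    set vec : Fin 5 → Fin 5 := ![L v (w1 v) i, ml (c v) i, L v (w2 v) i, t v (i + 1), t v (i + 2)]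
      with hvecdef
    have hbij : Function.Bijective vec := Finite.injective_iff_bijective.1 hvec
    have hnbadj : ∀ q, (SimpleGraph.boxProd G (⊤ : SimpleGraph (Fin 3))).Adj (v, i) (nb q) := by
      intro q
      rw [hadj]
      fin_cases q
      · exact Or.inl ⟨(hw1 v).1, rfl⟩
      · exact Or.inl ⟨hmt v, rfl⟩
      · exact Or.inl ⟨(hw2 v).1, rfl⟩
      · exact Or.inr ⟨ne_two i, rfl⟩
      · exact Or.inr ⟨ne_one i, rfl⟩
    have hnbcol : ∀ q, col (v, i) (nb q) = vec q := by
      intro q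
      fin_cases q
      · show (if v = w1 v then _ else colG v (w1 v) i) = L v (w1 v) i
        rw [if_neg (hw1 v).1.ne]
        show (if w1 v = mt v then _ else L v (w1 v) i) = _
        rw [if_neg ((hFadj _ _).1 (hw1 v)).2]
      · show (if v = mt v then _ else colG v (mt v) i) = ml (c v) i
        rw [if_neg (hmt v).ne]
        show (if mt v = mt v then ml (c v) i else _) = _
        rw [if_pos rfl]
      · show (if v = w2 v then _ else colG v (w2 v) i) = L v (w2 v) i
        rw [if_neg (hw2 v).1.ne]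
        show (if w2 v = mt v then _ else L v (w2 v) i) = _
        rw [if_neg ((hFadj _ _).1 (hw2 v)).2]
      · show (if v = v then t v (-(i + (i + 2))) else _) = t v (i + 1)
        rw [if_pos rfl, third2]
      · show (if v = v then t v (-(i + (i + 1))) else _) = t v (i + 2)
        rw [if_pos rfl, third1]
    have hall : ∀ y, (SimpleGraph.boxProd G (⊤ : SimpleGraph (Fin 3))).Adj (v, i) y →
        ∃ q, y = nb q := by
      rintro ⟨w, j⟩ h
      rcases (hadj _ _).1 h with ⟨h1, h2⟩ | ⟨h1, h2⟩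
      · simp only at h1 h2
        subst h2
        by_cases h3 : w = mt v
        · exact ⟨1, by rw [h3]; rfl⟩
        · have h4 : w ∈ (G.neighborFinset v).erase (mt v) := by
            rw [Finset.mem_erase, SimpleGraph.mem_neighborFinset]
            exact ⟨h3, h1⟩
          rw [hw v, Finset.mem_insert, Finset.mem_singleton] at h4
          rcases h4 with h4 | h4
          · exact ⟨0, by rw [h4]; rfl⟩
          · exact ⟨2, by rw [h4]; rfl⟩
      · simp only at h1 h2
        subst h2
        rcases two_cases i j h1 with h3 | h3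
        · exact ⟨4, by rw [h3]; rfl⟩
        · exact ⟨3, by rw [h3]; rfl⟩
    obtain ⟨q, hq⟩ := hbij.2 k
    refine ⟨nb q, ⟨hnbadj q, (hnbcol q).trans hq⟩, ?_⟩
    rintro y ⟨hy1, hy2⟩
    obtain ⟨q', rfl⟩ := hall y hy1
    have : vec q' = vec q := by rw [← hnbcol q', hy2, hq]
    rw [hbij.1 this]
  · intro e he
    induction e using Sym2.ind with
    | _ x y =>
      rw [SimpleGraph.mem_edgeSet] at he
      refine ⟨col x y, ?_, ?_⟩
      · show s(x, y) ∈ (M (col x y)).edgeSet
        rw [SimpleGraph.Subgraph.mem_edgeSet]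
        exact ⟨he, rfl⟩
      · intro k hk
        have hk' : s(x, y) ∈ (M k).edgeSet := hk
        rw [SimpleGraph.Subgraph.mem_edgeSet] at hk'
        exact hk'.2.symm

end Pool.Agent.H149R3.GK
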